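import Pool.Agent.H902B.Cover

set_option autoImplicit false

/-!
Hitting a residue class modulo `P ^ (2 T + 1)` by a short product of the numbers `1 + i P`.
-/

namespace Pool.Agent.H902C

open Finset Pool.Agent.H902A Pool.Agent.H902B

/-- the exponents -/
theorem hit (q P T : ℕ) (hT : 1 ≤ T) (hP : P.Prime) (hPT : 2 * T + 1 < P)
    (hPq : ¬ P ∣ q) (ρ l : ℤ) (hl : ¬ (P : ℤ) ∣ l) (hlρ : (P : ℤ) ∣ ρ - l)
    (D : ℕ) (hD : 2 * (T : ℤ) * (P * ZZ q P T) ≤ D) :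
    ∃ f : Fin (T + 1) → ℕ, (∀ i, (D : ℤ) - 2 * T * (P * ZZ q P T) ≤ f i) ∧
      (∀ i, (f i : ℤ) ≤ D + 2 * T * (P * ZZ q P T)) ∧
      (P : ℤ) ^ (2 * T + 1) ∣ l * ∏ i : Fin (T + 1),
        (1 + ((q : ℤ) * (i.1 : ℤ)) * (P : ℤ)) ^ (f i) - ρ := by
  set G0 : ℤ := ∏ i : Fin (T + 1), (1 + ((q : ℤ) * (i.1 : ℤ)) * (P : ℤ)) ^ D with hG0
  have hPp : Prime (P : ℤ) := Nat.prime_iff_prime_int.1 hP
  have hodd : Odd P := hP.odd_of_ne_two (by omega)
  have hG1 : (P : ℤ) ∣ G0 - 1 := by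
    have h1 : ∀ i : Fin (T + 1), (P : ℤ) ∣ (1 + ((q : ℤ) * (i.1 : ℤ)) * (P : ℤ)) ^ D - 1 := by
      intro i
      have h2 := sub_dvd_pow_sub_pow (1 + ((q : ℤ) * (i.1 : ℤ)) * (P : ℤ)) 1 D
      rw [one_pow, add_sub_cancel_left] at h2
      exact (dvd_mul_left _ _).trans h2
    rw [hG0]
    clear_value G0
    induction (univ : Finset (Fin (T + 1))) using Finset.induction_on with
    | empty => simp
    | insert b s hb ih =>
      rw [Finset.prod_insert hb]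
      have h3 := dvd_add ((h1 b).mul_right (∏ i ∈ s, (1 + ((q : ℤ) * (i.1 : ℤ)) * (P : ℤ)) ^ D)) ih
      rwa [sub_mul, one_mul, sub_add_sub_cancel] at h3
  obtain ⟨v, hv⟩ := hG1
  have hcop : IsCoprime ((P : ℤ) ^ (2 * T + 1)) (l * G0) := by
    apply IsCoprime.pow_left
    rw [Prime.coprime_iff_not_dvd hPp]
    intro hd
    rcases hPp.dvd_or_dvd hd with h1 | h1
    · exact hl h1
    · have h2 : (P : ℤ) ∣ 1 := by
        have h3 : (1 : ℤ) = G0 - P * v := by linarith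
        rw [h3]
        exact dvd_sub h1 (dvd_mul_right _ _)
      exact hPp.not_isUnit (isUnit_of_dvd_one h2)
  obtain ⟨p, w, hpw⟩ := hcop
  obtain ⟨k, hk⟩ := hlρ
  have hh : (P : ℤ) ∣ ρ * w - 1 := by
    refine ⟨-(p * (P : ℤ) ^ (2 * T)) + w * k - l * w * v, ?_⟩
    have h1 : (P : ℤ) ^ (2 * T + 1) = (P : ℤ) ^ (2 * T) * P := pow_succ _ _
    rw [h1] at hpw
    linear_combination hpw - l * w * hv + w * hk
  obtain ⟨c, e, h1, h2, h3⟩ := cover q P T hT hP hPT hPq (ρ * w) hh (2 * T) le_rfl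
  have hb : ∀ i, |e i| ≤ 2 * (T : ℤ) * (P * ZZ q P T) := by
    intro i
    have := h1 i
    push_cast at this
    exact this
  have hnn : ∀ i, 0 ≤ (D : ℤ) + e i := by
    intro i
    have := (abs_le.1 (hb i)).1
    linarith
  have hf : ∀ i, (((D : ℤ) + e i).toNat : ℤ) = (D : ℤ) + e i := fun i =>
    Int.toNat_of_nonneg (hnn i)
  refine ⟨fun i => ((D : ℤ) + e i).toNat, ?_, ?_, ?_⟩
  · intro i
    rw [hf i]
    have := (abs_le.1 (hb i)).1
    linarith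
  · intro i
    rw [hf i]
    have h4 := (abs_le.1 (hb i)).2
    linarith
  · -- replace the exponents
    have h4 : ∀ i, (P : ℤ) ^ (2 * T + 1) ∣
        (1 + ((q : ℤ) * (i.1 : ℤ)) * (P : ℤ)) ^ (((D : ℤ) + e i).toNat) -
        (1 + ((q : ℤ) * (i.1 : ℤ)) * (P : ℤ)) ^ (D + c i) := by
      intro i
      apply period _ _ hodd
      rw [hf i]
      have h8 := (dvd_neg (α := ℤ)).2 (h2 i)
      have h9 : ((D : ℤ) + e i) - ((D + c i : ℕ) : ℤ) = -((c i : ℤ) - e i) := by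
        push_cast
        ring
      rw [h9]
      exact h8
    have h5 : (P : ℤ) ^ (2 * T + 1) ∣
        ∏ i : Fin (T + 1), (1 + ((q : ℤ) * (i.1 : ℤ)) * (P : ℤ)) ^ (((D : ℤ) + e i).toNat) -
        ∏ i : Fin (T + 1), (1 + ((q : ℤ) * (i.1 : ℤ)) * (P : ℤ)) ^ (D + c i) := by
      induction (univ : Finset (Fin (T + 1))) using Finset.induction_on with
      | empty => simp
      | insert b s hb' ih =>
        rw [Finset.prod_insert hb', Finset.prod_insert hb']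
        set X1 := ∏ i ∈ s, (1 + ((q : ℤ) * (i.1 : ℤ)) * (P : ℤ)) ^ (((D : ℤ) + e i).toNat)
        set X2 := ∏ i ∈ s, (1 + ((q : ℤ) * (i.1 : ℤ)) * (P : ℤ)) ^ (D + c i)
        have h6 := dvd_add ((h4 b).mul_right X1)
          (ih.mul_left ((1 + ((q : ℤ) * (b.1 : ℤ)) * (P : ℤ)) ^ (D + c b)))
        have h8 : (1 + ((q : ℤ) * (b.1 : ℤ)) * (P : ℤ)) ^ (((D : ℤ) + e b).toNat) * X1 -
            (1 + ((q : ℤ) * (b.1 : ℤ)) * (P : ℤ)) ^ (D + c b) * X2 =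
            ((1 + ((q : ℤ) * (b.1 : ℤ)) * (P : ℤ)) ^ (((D : ℤ) + e b).toNat) -
            (1 + ((q : ℤ) * (b.1 : ℤ)) * (P : ℤ)) ^ (D + c b)) * X1 +
            (1 + ((q : ℤ) * (b.1 : ℤ)) * (P : ℤ)) ^ (D + c b) * (X1 - X2) := by ring
        rw [h8]
        exact h6
    have h6 : ∏ i : Fin (T + 1), (1 + ((q : ℤ) * (i.1 : ℤ)) * (P : ℤ)) ^ (D + c i) =
        G0 * ∏ i : Fin (T + 1), (1 + ((q : ℤ) * (i.1 : ℤ)) * (P : ℤ)) ^ (c i) := by
      rw [hG0, ← Finset.prod_mul_distrib]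
      refine Finset.prod_congr rfl fun i _ => ?_
      rw [pow_add]
    rw [h6] at h5
    set X := ∏ i : Fin (T + 1), (1 + ((q : ℤ) * (i.1 : ℤ)) * (P : ℤ)) ^ (((D : ℤ) + e i).toNat)
    set Y := ∏ i : Fin (T + 1), (1 + ((q : ℤ) * (i.1 : ℤ)) * (P : ℤ)) ^ (c i)
    have h7 := dvd_add (dvd_sub (h5.mul_left l) (h3.mul_left (l * G0)))
      ((dvd_refl ((P : ℤ) ^ (2 * T + 1))).mul_left (-(ρ * p)))
    have h8 : l * X - ρ = l * (X - G0 * Y) -
        l * G0 * (ρ * w - Y) + -(ρ * p) * (P : ℤ) ^ (2 * T + 1) := by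
      linear_combination ρ * hpw
    rw [h8]
    exact h7

end Pool.Agent.H902C
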