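import Pool.Agent.H902C.Vojta

set_option autoImplicit false

/-!
The main estimate.
-/

namespace Pool.Agent.H902C

open Finset Pool.Agent.H902A Pool.Agent.H902B

theorem core {n : ℕ} (F G : MvPolynomial (Fin n) ℤ) (i0 : Fin n) (hi : i0 ∈ F.vars)
    (hX : ¬ MvPolynomial.X i0 ∣ F) (hG : G ≠ 0) (C : ℝ) (H0 : ℕ) :
    ∃ (c : Fin n → ℕ) (H : ℕ), (∀ j, 1 ≤ c j) ∧ (∀ j, c j ≤ H) ∧ (∃ j, c j = H) ∧ H0 ≤ H ∧
      MvPolynomial.eval (fun j => (c j : ℤ)) G ≠ 0 ∧
      MvPolynomial.eval (fun j => (c j : ℤ)) F ≠ 0 ∧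
      Real.log (rad ((∏ j, c j) * (MvPolynomial.eval (fun j => (c j : ℤ)) F).natAbs)) +
        Real.log (Real.log H) ^ 2 / 34 + C < Real.log (maxMon F c) := by
  obtain ⟨CF, hCF1, hCF⟩ := size F
  obtain ⟨t, ht0, hdeg, h0⟩ := exists_t i0 F hi hX
  have hF : F ≠ 0 := by
    rintro rfl
    simp at hi
  have hQ : F * G ≠ 0 := mul_ne_zero hF hG
  set m : ℕ := (F * G).totalDegree with hm
  obtain ⟨T0, hT0⟩ := ev_big2 m n (Real.log CF + C)
  obtain ⟨P, hP, hPB, hroot⟩ := root (one i0 t F) hdeg h0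
    (8 ^ (T0 + 1) + ∑ j, (t j).natAbs + H0)
  have h8pos : 0 < 8 ^ (T0 + 1) := by positivity
  set T : ℕ := Nat.log 8 P with hT
  have hP1 : 8 ^ T ≤ P := Nat.pow_log_le_self 8 hP.ne_zero
  have hP2 : P < 8 ^ (T + 1) := Nat.lt_pow_succ_log_self (by norm_num) P
  have hTT : T0 ≤ T := by
    by_contra hcon
    push Not at hcon
    have h1 : 8 ^ (T + 1) ≤ 8 ^ (T0 + 1) := Nat.pow_le_pow_right (by norm_num) (by omega)
    omega
  have hbig2 := hT0 T hTT
  have hbig := hbig2.1
  have hT1 := hbig.1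
  obtain ⟨r, hr1, hr2⟩ := hroot (2 * T + 1)
  have hPp : Prime (P : ℤ) := Nat.prime_iff_prime_int.1 hP
  have hP0 : (0 : ℤ) < P := by exact_mod_cast hP.pos
  set ρ : Fin n → ℤ := Function.update t i0 r with hρ
  have hρ0 : ∀ j, ¬ (P : ℤ) ∣ ρ j := by
    intro j
    by_cases hj : j = i0
    · subst hj
      rw [hρ, Function.update_self]
      exact hr1
    · rw [hρ, Function.update_of_ne hj]
      intro hd
      have h3 := Int.natAbs_dvd_natAbs.2 hd
      rw [Int.natAbs_natCast] at h3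
      have h4 := Nat.le_of_dvd (Int.natAbs_pos.2 (ht0 j)) h3
      have h5 : (t j).natAbs ≤ ∑ j, (t j).natAbs :=
        Finset.single_le_sum (f := fun j => (t j).natAbs) (fun _ _ => Nat.zero_le _)
          (Finset.mem_univ j)
      omega
  -- links
  set l : Fin n → ℕ := fun j => (ρ j % P).toNat with hl
  have hlZ : ∀ j, (l j : ℤ) = ρ j % P := fun j => Int.toNat_of_nonneg (Int.emod_nonneg _ hP0.ne')
  have hlne : ∀ j, ¬ (P : ℤ) ∣ (l j : ℤ) := by
    intro j hd
    rw [hlZ j] at hd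
    apply hρ0 j
    apply Int.dvd_of_emod_eq_zero
    rw [← Int.emod_emod_of_dvd (ρ j) (dvd_refl (P : ℤ))]
    exact Int.emod_eq_zero_of_dvd hd
  have hlρ : ∀ j, (P : ℤ) ∣ ρ j - l j := by
    intro j
    rw [hlZ j]
    exact Int.dvd_self_sub_of_emod_eq rfl
  have hl1 : ∀ j, 1 ≤ l j := by
    intro j
    by_contra hcon
    have h1 : l j = 0 := by omega
    apply hlne j
    rw [h1]
    simp
  have hl2 : ∀ j, l j ≤ P := by
    intro j
    have h1 := Int.emod_lt_of_pos (ρ j) hP0
    rw [← hlZ j] at h1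
    have h2 : l j < P := by exact_mod_cast h1
    exact h2.le
  have hPT : 2 * T + 1 < P := by
    have h1 : T < 2 ^ T := Nat.lt_two_pow_self
    have h2 : 2 * 2 ^ T + 1 ≤ 8 ^ T := by
      have h3 : 4 ≤ 4 ^ T := by
        calc 4 = 4 ^ 1 := by norm_num
          _ ≤ 4 ^ T := Nat.pow_le_pow_right (by norm_num) (by omega)
      have h4 : (8 : ℕ) ^ T = 4 ^ T * 2 ^ T := by
        rw [← mul_pow]
        norm_num
      have h5 : 1 ≤ 2 ^ T := Nat.one_le_two_pow
      rw [h4]
      nlinarith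
    omega
  have hPq : ¬ P ∣ 1 := fun h => hP.one_lt.ne' (Nat.dvd_one.1 h)
  -- the bound for the exponents
  have hZ := one_le_ZZ 1 P T
  have hE0 : (0 : ℤ) ≤ 2 * (T : ℤ) * (P * ZZ 1 P T) := by positivity
  obtain ⟨E, hE⟩ : ∃ E : ℕ, (E : ℤ) = 2 * (T : ℤ) * (P * ZZ 1 P T) :=
    ⟨(2 * (T : ℤ) * (P * ZZ 1 P T)).toNat, Int.toNat_of_nonneg hE0⟩
  have hPR : (1 : ℝ) ≤ P := by exact_mod_cast hP.one_le
  have hPR2 : (P : ℝ) ≤ 8 * 8 ^ T := by
    have h1 : P ≤ 8 * 8 ^ T := by
      rw [pow_succ] at hP2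
      omega
    exact_mod_cast h1
  have hER : 2 * (E : ℝ) ≤ Real.exp (8.33 * T) := by
    have h1 : (E : ℝ) = 2 * (T : ℝ) * (P * ((ZZ 1 P T : ℤ) : ℝ)) := by exact_mod_cast hE
    have h2 := A1 T hbig (P : ℝ) hPR hPR2
    rw [h1, ZZ_cast]
    rw [Nat.cast_one]
    linarith
  set D : ℕ → ℕ := fun s => E + 1 + s * (2 * E + 1) with hD
  have hDE : ∀ s, 2 * (T : ℤ) * (P * ZZ 1 P T) ≤ D s := by
    intro s
    rw [← hE]
    have h1 : E ≤ D s := by
      rw [hD]
      simp only
      have := Nat.zero_le (s * (2 * E + 1))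
      omega
    exact_mod_cast h1
  choose f hf1 hf2 hf3 using fun (j : Fin n) (s : ℕ) =>
    hit 1 P T (by omega) hP hPT hPq (ρ j) (l j) (hlne j) (hlρ j) (D s) (hDE s)
  have hf1' : ∀ j s i, 1 ≤ f j s i := by
    intro j s i
    have h1 := hf1 j s i
    rw [← hE] at h1
    have h2 : (D s : ℤ) = E + 1 + s * (2 * E + 1) := by
      rw [hD]
      push_cast
      ring
    have h3 : (0 : ℤ) ≤ (s : ℤ) * (2 * E + 1) := by positivity
    have h4 : (1 : ℤ) ≤ f j s i := by linarith
    exact_mod_cast h4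
  have hmono : ∀ j, StrictMono fun s => cj (l j) P T (f j s) := by
    intro j
    apply strictMono_nat_of_lt_succ
    intro s
    apply cj_lt _ _ _ (by omega) (hl1 j) hP.one_le
    intro i
    have h1 := hf2 j s i
    have h2 := hf1 j (s + 1) i
    rw [← hE] at h1 h2
    have h3 : (D (s + 1) : ℤ) = D s + (2 * E + 1) := by
      rw [hD]
      push_cast
      ring
    have h4 : (f j s i : ℤ) < f j (s + 1) i := by
      rw [h3] at h2
      linarith
    exact_mod_cast h4
  -- the choice of the coordinates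
  obtain ⟨x, hx1, hx2⟩ : ∃ x : Fin n → ℤ,
      (∀ j, x j ∈ (range (m + 1)).image fun s => ((cj (l j) P T (f j s) : ℕ) : ℤ)) ∧
      MvPolynomial.eval x (F * G) ≠ 0 := by
    by_contra hcon
    push Not at hcon
    apply hQ
    refine MvPolynomial.eq_zero_of_eval_zero_at_prod_finset (F * G)
      (fun j => (range (m + 1)).image fun s => ((cj (l j) P T (f j s) : ℕ) : ℤ)) ?_ hcon
    intro j
    have hinj : Function.Injective fun s => ((cj (l j) P T (f j s) : ℕ) : ℤ) :=
      Nat.cast_injective.comp (hmono j).injective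
    rw [Finset.card_image_of_injective _ hinj, Finset.card_range]
    have := MvPolynomial.degreeOf_le_totalDegree (F * G) j
    omega
  have hx3 : ∀ j, ∃ s, s < m + 1 ∧ ((cj (l j) P T (f j s) : ℕ) : ℤ) = x j := by
    intro j
    obtain ⟨s, hs1, hs2⟩ := Finset.mem_image.1 (hx1 j)
    exact ⟨s, Finset.mem_range.1 hs1, hs2⟩
  choose s hs1 hs2 using hx3
  set c : Fin n → ℕ := fun j => cj (l j) P T (f j (s j)) with hc
  have hcx : (fun j => (c j : ℤ)) = x := by
    funext j
    exact hs2 j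
  rw [map_mul] at hx2
  have hFc : MvPolynomial.eval (fun j => (c j : ℤ)) F ≠ 0 := by
    rw [hcx]
    exact left_ne_zero_of_mul hx2
  have hGc : MvPolynomial.eval (fun j => (c j : ℤ)) G ≠ 0 := by
    rw [hcx]
    exact right_ne_zero_of_mul hx2
  set H : ℕ := Finset.univ.sup c with hH
  have hcH : ∀ j, c j ≤ H := fun j => Finset.le_sup (f := c) (Finset.mem_univ j)
  obtain ⟨jm, -, hjm⟩ := Finset.exists_mem_eq_sup (Finset.univ : Finset (Fin n))
    ⟨i0, Finset.mem_univ _⟩ c
  have hc1 : ∀ j, 1 ≤ c j := fun j => cj_pos _ _ _ (hl1 j) _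
  have hPH : P ≤ H := (cj_ge (l i0) P T (by omega) (hl1 i0) (f i0 (s i0)) (hf1' i0 (s i0))).trans
    (hcH i0)
  refine ⟨c, H, hc1, hcH, ⟨jm, hjm.symm⟩, by omega, hGc, hFc, ?_⟩
  -- divisibility
  set N : ℕ := (MvPolynomial.eval (fun j => (c j : ℤ)) F).natAbs with hN
  have hN0 : N ≠ 0 := by
    rw [hN]
    exact Int.natAbs_ne_zero.2 hFc
  have hNd : P ^ (2 * T + 1) ∣ N := by
    have h1 : ∀ j, (P : ℤ) ^ (2 * T + 1) ∣ (c j : ℤ) - ρ j := by
      intro j
      have h2 := hf3 j (s j)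
      have h3 : (c j : ℤ) = (l j : ℤ) * ∏ i : Fin (T + 1),
          (1 + (((1 : ℕ) : ℤ) * (i.1 : ℤ)) * (P : ℤ)) ^ (f j (s j) i) := by
        rw [hc]
        simp only [cj]
        push_cast
        ring
      rw [h3]
      exact h2
    have h2 := eval_congr F _ _ _ h1
    have h3 : (P : ℤ) ^ (2 * T + 1) ∣ MvPolynomial.eval ρ F := by
      rw [hρ, ← eval_one]
      exact hr2
    have h4 := dvd_add h2 h3
    rw [sub_add_cancel] at h4
    rw [hN]
    apply Int.natCast_dvd.1
    push_cast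
    exact h4
  have hrad := rad_le' P T hP l hl1 hl2 (fun j => f j (s j)) N hN0 hNd
  have hNle : N ≤ CF * maxMon F c := hCF c
  have hMpos : (0 : ℝ) < maxMon F c := by
    have : 0 < maxMon F c := maxMon_pos F hF c hc1
    exact_mod_cast this
  -- logarithms
  have hH1 : (1 : ℝ) ≤ H := by
    have : 1 ≤ H := by omega
    exact_mod_cast this
  have hlP1 : (T : ℝ) * Real.log 8 ≤ Real.log P := by
    rw [← Real.log_pow]
    exact Real.log_le_log (by positivity) (by exact_mod_cast hP1)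
  have hlP3 : Real.log P ≤ 3 * T := by
    refine le_trans (Real.log_le_log (by linarith) ?_) (A2 T hbig (P : ℝ) hPR hPR2)
    have : (1 : ℝ) ≤ T := by exact_mod_cast (by omega : 1 ≤ T)
    nlinarith
  have hT1' : (10000 : ℝ) ≤ T := by exact_mod_cast hT1
  have hlH0 : 1 ≤ Real.log H := by
    have h1 : Real.log P ≤ Real.log H := Real.log_le_log (by linarith) (by exact_mod_cast hPH)
    have h2 := log2_lo
    have h3 := log8
    have h4 : (T : ℝ) * 2 ≤ T * Real.log 8 := by
      apply mul_le_mul_of_nonneg_left _ (by linarith)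
      rw [h3]
      linarith
    linarith
  have hlH : Real.log H ≤ Real.log P + ((T : ℝ) + 1) * (((m : ℝ) + 1) * (2 * E + 1) * (3 * T)) := by
    have hHc : H = c jm := hjm
    rw [hHc, hc]
    apply log_cj T hbig (l jm) P (hl1 jm) (hl2 jm) hP.one_le hPR2 _ _ (by positivity)
    intro i
    have h1 := hf2 jm (s jm) i
    rw [← hE] at h1
    have h2 : (f jm (s jm) i : ℝ) ≤ D (s jm) + E := by exact_mod_cast h1
    have h3 : (D (s jm) : ℝ) = E + 1 + s jm * (2 * E + 1) := by
      rw [hD]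
      push_cast
      ring
    have h4 : (s jm : ℝ) ≤ m := by
      have := hs1 jm
      exact_mod_cast (by omega : s jm ≤ m)
    have h5 : (s jm : ℝ) * (2 * E + 1) ≤ m * (2 * E + 1) :=
      mul_le_mul_of_nonneg_right h4 (by positivity)
    rw [h3] at h2
    linarith
  have hll := A3 m n (Real.log CF + C) T hbig2 (E : ℝ) (Real.log P) (Real.log H) (by positivity)
    hER hlP3 hlH0 hlH
  have hll0 : 0 ≤ Real.log (Real.log H) := Real.log_nonneg hlH0
  have hfin := A4 m n (Real.log CF + C) T hbig2 (Real.log P) (Real.log (Real.log H)) hlP1 hll0 hll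
  -- take logarithms in `hrad`
  have hradR : (rad ((∏ j, c j) * N) : ℝ) * (P : ℝ) ^ (2 * T) ≤
      ((P : ℝ) ^ n * (2 * 1 * T * P : ℝ) ^ T) * (CF * (maxMon F c : ℝ)) := by
    have h1 : (rad ((∏ j, c j) * N) : ℝ) * (P : ℝ) ^ (2 * T) ≤
        ((P : ℝ) ^ n * ((∏ i : Fin (T + 1), (1 + 1 * i.1 * P) : ℕ) : ℝ)) * N := by
      exact_mod_cast hrad
    refine h1.trans (mul_le_mul ?_ (by exact_mod_cast hNle) (by positivity) (by positivity))
    apply mul_le_mul_of_nonneg_left _ (by positivity)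
    have := prod_le 1 P T le_rfl hP.one_le (by omega)
    rw [Nat.cast_one] at this
    exact this
  have hradpos : (0 : ℝ) < rad ((∏ j, c j) * N) := by exact_mod_cast rad_pos _
  have hCFpos : (0 : ℝ) < CF := by exact_mod_cast (by omega : 0 < CF)
  have hTpos : (0 : ℝ) < T := by linarith
  have hlog := Real.log_le_log (by positivity) hradR
  rw [Real.log_mul (by positivity) (by positivity), Real.log_mul (by positivity) (by positivity),
    Real.log_mul (by positivity) (by positivity), Real.log_mul (by positivity) (by positivity),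
    Real.log_pow, Real.log_pow, Real.log_pow,
    Real.log_mul (by positivity) (by positivity), Real.log_mul (by positivity) (by positivity),
    mul_one] at hlog
  push_cast at hlog
  linarith

end Pool.Agent.H902C
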