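import Mathlib

set_option autoImplicit false

/-!
Integer polynomials have roots modulo high powers of arbitrarily large primes.
-/

namespace Pool.Agent.H902C

open Polynomial

/-- clearing denominators -/
theorem clear (h : ℚ[X]) : ∃ (m : ℤ) (k : ℤ[X]), m ≠ 0 ∧
    k.map (Int.castRingHom ℚ) = C (m : ℚ) * h := by
  obtain ⟨b, hb, hk⟩ := IsLocalization.integerNormalization_spec (nonZeroDivisors ℤ) h
  refine ⟨b, IsLocalization.integerNormalization (nonZeroDivisors ℤ) h,
    nonZeroDivisors.ne_zero hb, ?_⟩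
  have h1 : (algebraMap ℤ ℚ) = Int.castRingHom ℚ := rfl
  rw [← h1, hk]
  ext i
  simp

/-- a nonconstant integer polynomial has, up to a constant factor, a nonconstant factor `g`
which is coprime to its derivative -/
theorem factor (f : ℤ[X]) (hf : 0 < f.natDegree) :
    ∃ (g h u v : ℤ[X]) (m Δ : ℤ), 0 < g.natDegree ∧ m ≠ 0 ∧ Δ ≠ 0 ∧
      C m * f = g * h ∧ u * g + v * derivative g = C Δ := by
  have hinj : Function.Injective (Polynomial.map (Int.castRingHom ℚ)) :=
    Polynomial.map_injective _ Int.cast_injective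
  have hd : 0 < (f.map (Int.castRingHom ℚ)).degree := by
    rw [Polynomial.degree_map_eq_of_injective (RingHom.injective_int _)]
    exact Polynomial.natDegree_pos_iff_degree_pos.1 hf
  obtain ⟨g0, hg0, q0, hq0⟩ := Polynomial.exists_irreducible_of_degree_pos hd
  obtain ⟨m1, g, hm1, hg⟩ := clear g0
  obtain ⟨m2, h2, hm2, hh2⟩ := clear q0
  have hsep : g0.Separable := hg0.separable
  obtain ⟨a, b, hab⟩ := hsep
  obtain ⟨m3, u0, hm3, hu0⟩ := clear a
  obtain ⟨m4, v0, hm4, hv0⟩ := clear b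
  have hm1Q : (m1 : ℚ) ≠ 0 := by exact_mod_cast hm1
  refine ⟨g, h2, C m4 * u0, C m3 * v0, m1 * m2, m1 * m3 * m4, ?_, mul_ne_zero hm1 hm2,
    mul_ne_zero (mul_ne_zero hm1 hm3) hm4, ?_, ?_⟩
  · have h1 : 0 < g0.natDegree := hg0.natDegree_pos
    have h3 : (g.map (Int.castRingHom ℚ)).natDegree = g0.natDegree := by
      rw [hg, Polynomial.natDegree_C_mul hm1Q]
    rw [Polynomial.natDegree_map_eq_of_injective (RingHom.injective_int _)] at h3
    omega
  · apply hinj
    rw [Polynomial.map_mul, Polynomial.map_mul, hg, hh2, hq0, Polynomial.map_C]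
    simp only [eq_intCast, Int.cast_mul, C_mul]
    ring
  · apply hinj
    rw [Polynomial.map_add, Polynomial.map_mul, Polynomial.map_mul, Polynomial.map_mul,
      Polynomial.map_mul, ← Polynomial.derivative_map, hg, hu0, hv0, Polynomial.map_C,
      Polynomial.map_C, Polynomial.map_C, Polynomial.derivative_C_mul]
    simp only [eq_intCast, Int.cast_mul, C_mul]
    linear_combination (C (m1 : ℚ) * C (m3 : ℚ) * C (m4 : ℚ)) * hab

/-- Schur -/
theorem schur (g : ℤ[X]) (hg : 0 < g.natDegree) (h0 : g.eval 0 ≠ 0) (B : ℕ) :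
    ∃ P : ℕ, P.Prime ∧ B < P ∧ ∃ x : ℤ, (P : ℤ) ∣ g.eval x := by
  set a : ℤ := g.eval 0 with ha
  set b : ℤ := (B.factorial : ℤ) with hb
  have hb0 : b ≠ 0 := by
    rw [hb]
    exact_mod_cast B.factorial_ne_zero
  -- some `x` with `g (a b x) ≠ ± a`
  have hx : ∃ x : ℤ, g.eval (a * b * x) ≠ a ∧ g.eval (a * b * x) ≠ -a := by
    by_contra hcon
    push Not at hcon
    have h1 : ∀ x : ℤ, ((g - C a) * (g + C a)).eval (a * b * x) = 0 := by
      intro x
      rw [eval_mul, eval_sub, eval_add, eval_C]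
      by_cases h : g.eval (a * b * x) = a
      · rw [h]
        ring
      · rw [hcon x h]
        ring
    have h2 : (g - C a) * (g + C a) = 0 := by
      apply Polynomial.eq_zero_of_infinite_isRoot
      apply Set.Infinite.mono (s := Set.range fun x : ℤ => a * b * x)
      · rintro _ ⟨x, rfl⟩
        exact h1 x
      · apply Set.infinite_range_of_injective
        intro x y hxy
        exact mul_left_cancel₀ (mul_ne_zero h0 hb0) hxy
    rcases mul_eq_zero.1 h2 with h | h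
    · have h3 : g = C a := sub_eq_zero.1 h
      rw [h3, natDegree_C] at hg
      exact lt_irrefl _ hg
    · have h3 : g = C (-a) := by
        rw [C_neg]
        exact eq_neg_of_add_eq_zero_left h
      rw [h3, natDegree_C] at hg
      exact lt_irrefl _ hg
  obtain ⟨x, hx1, hx2⟩ := hx
  obtain ⟨w, hw⟩ := Polynomial.sub_dvd_eval_sub (a * b * x) 0 g
  rw [← ha, sub_zero] at hw
  have hg2 : g.eval (a * b * x) = a * (1 + b * (x * w)) := by
    linear_combination hw
  have h3 : (1 + b * (x * w)).natAbs ≠ 1 := by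
    intro h
    rcases Int.natAbs_eq (1 + b * (x * w)) with h4 | h4
    · rw [h] at h4
      apply hx1
      rw [hg2, h4]
      simp
    · rw [h] at h4
      apply hx2
      rw [hg2, h4]
      simp
  obtain ⟨P, hP, hPd⟩ := Nat.exists_prime_and_dvd h3
  refine ⟨P, hP, ?_, a * b * x, ?_⟩
  · by_contra hPB
    push Not at hPB
    have h4 : (P : ℤ) ∣ b := by
      rw [hb]
      exact_mod_cast Nat.dvd_factorial hP.pos hPB
    have h5 : (P : ℤ) ∣ 1 + b * (x * w) := Int.natCast_dvd.2 hPd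
    have h6 : (P : ℤ) ∣ 1 := (dvd_add_left (h4.mul_right _)).1 h5
    exact hP.one_lt.ne' (by exact_mod_cast Int.eq_one_of_dvd_one (by positivity) h6)
  · rw [hg2]
    exact (Int.natCast_dvd.2 hPd).mul_left a

/-- Hensel -/
theorem hensel (g : ℤ[X]) (P : ℕ) (hP : P.Prime) (x : ℤ) (hx : (P : ℤ) ∣ g.eval x)
    (hx' : ¬ (P : ℤ) ∣ (derivative g).eval x) (K : ℕ) :
    ∃ r : ℤ, (P : ℤ) ∣ r - x ∧ (P : ℤ) ^ (K + 1) ∣ g.eval r := by
  induction K with
  | zero => exact ⟨x, by simp, by simpa using hx⟩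
  | succ K ih =>
    obtain ⟨r, hr1, z, hz⟩ := ih
    have hPp : Prime (P : ℤ) := Nat.prime_iff_prime_int.1 hP
    have hd : ¬ (P : ℤ) ∣ (derivative g).eval r := by
      intro h
      apply hx'
      have h1 := Polynomial.sub_dvd_eval_sub r x (derivative g)
      have h2 := dvd_sub h (hr1.trans h1)
      rwa [sub_sub_cancel] at h2
    obtain ⟨p, q, hpq⟩ := (Prime.coprime_iff_not_dvd hPp).2 hd
    -- `r' = r - z q P ^ (K + 1)`
    obtain ⟨k, hk⟩ := Polynomial.binomExpansion g r (-(z * q) * (P : ℤ) ^ (K + 1))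
    refine ⟨r + -(z * q) * (P : ℤ) ^ (K + 1), ?_, ?_⟩
    · obtain ⟨s, hs⟩ := hr1
      refine ⟨s - z * q * (P : ℤ) ^ K, ?_⟩
      linear_combination hs
    · rw [hk, hz]
      refine ⟨z * p + k * (z * q) ^ 2 * (P : ℤ) ^ K, ?_⟩
      linear_combination (-z * (P : ℤ) ^ (K + 1)) * hpq

/-- roots modulo high powers of a large prime -/
theorem root (f : ℤ[X]) (hf : 0 < f.natDegree) (h0 : f.eval 0 ≠ 0) (B : ℕ) :
    ∃ P : ℕ, P.Prime ∧ B < P ∧ ∀ K : ℕ, ∃ r : ℤ, ¬ (P : ℤ) ∣ r ∧ (P : ℤ) ^ K ∣ f.eval r := by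
  obtain ⟨g, h, u, v, m, Δ, hg, hm, hΔ, h1, h2⟩ := factor f hf
  have hg0 : g.eval 0 ≠ 0 := by
    intro h3
    have h4 := congrArg (Polynomial.eval 0) h1
    rw [eval_mul, eval_mul, h3, eval_C, zero_mul] at h4
    rcases mul_eq_zero.1 h4 with h5 | h5
    · exact hm h5
    · exact h0 h5
  obtain ⟨P, hP, hPB, x, hx⟩ := schur g hg hg0
    (max B (max m.natAbs (max Δ.natAbs (f.eval 0).natAbs)))
  have hPp : Prime (P : ℤ) := Nat.prime_iff_prime_int.1 hP
  have hnd : ∀ y : ℤ, y ≠ 0 → y.natAbs < P → ¬ (P : ℤ) ∣ y := by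
    intro y hy hyP hd
    have h3 := Int.natAbs_dvd_natAbs.2 hd
    rw [Int.natAbs_natCast] at h3
    exact absurd (Nat.le_of_dvd (Int.natAbs_pos.2 hy) h3) (by omega)
  have hPm := hnd m hm (by omega)
  have hPΔ := hnd Δ hΔ (by omega)
  have hPf := hnd (f.eval 0) h0 (by omega)
  refine ⟨P, hP, by omega, fun K => ?_⟩
  have hx' : ¬ (P : ℤ) ∣ (derivative g).eval x := by
    intro h3
    apply hPΔ
    have h4 := congrArg (Polynomial.eval x) h2
    rw [eval_add, eval_mul, eval_mul, eval_C] at h4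
    rw [← h4]
    exact dvd_add (hx.mul_left _) (h3.mul_left _)
  obtain ⟨r, hr1, hr2⟩ := hensel g P hP x hx hx' K
  have hfr : (P : ℤ) ^ K ∣ f.eval r := by
    have h3 := congrArg (Polynomial.eval r) h1
    rw [eval_mul, eval_mul, eval_C] at h3
    have h4 : (P : ℤ) ^ K ∣ m * f.eval r := by
      rw [h3]
      exact ((pow_dvd_pow _ (Nat.le_succ K)).trans hr2).mul_right _
    exact (IsCoprime.pow_left ((Prime.coprime_iff_not_dvd hPp).2 hPm)).dvd_of_dvd_mul_left h4
  refine ⟨r, ?_, hfr⟩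
  intro hr
  apply hPf
  -- `P ∣ g r`, hence `P ∣ f r`, and `P ∣ r` gives `P ∣ f 0`
  have h5 : (P : ℤ) ∣ m * f.eval r := by
    have h3 := congrArg (Polynomial.eval r) h1
    rw [eval_mul, eval_mul, eval_C] at h3
    rw [h3]
    exact ((dvd_pow_self _ (Nat.succ_ne_zero K)).trans hr2).mul_right _
  have h6 : (P : ℤ) ∣ f.eval r := (hPp.dvd_or_dvd h5).resolve_left hPm
  have h7 := Polynomial.sub_dvd_eval_sub r 0 f
  rw [sub_zero] at h7
  have h8 := dvd_sub h6 (hr.trans h7)
  rwa [sub_sub_cancel] at h8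

end Pool.Agent.H902C
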