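import Pool.Agent.H902B.Asy

set_option autoImplicit false

/-!
Inequalities for large parameters.
-/

namespace Pool.Agent.H902C

open Pool.Agent.H902B Filter

/-- the properties of `T` used below -/
def Big2 (m n : ℕ) (A : ℝ) (T : ℕ) : Prop :=
  Big T ∧ Real.log ((m : ℝ) + 2) ≤ (T : ℝ) / 1000 ∧ (n : ℝ) ≤ (T : ℝ) / 1000 ∧
    A ≤ (T : ℝ) ^ 2 / 1000

theorem ev_big2 (m n : ℕ) (A : ℝ) : ∃ T0 : ℕ, ∀ T, T0 ≤ T → Big2 m n A T := by
  obtain ⟨T1, hT1⟩ := ev_big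
  refine ⟨max T1 (⌈1000 * Real.log ((m : ℝ) + 2)⌉₊ + 1000 * n + ⌈1000 * |A|⌉₊ + 1), fun T hT => ?_⟩
  have h1 : T1 ≤ T := le_trans (le_max_left _ _) hT
  have h2 : ⌈1000 * Real.log ((m : ℝ) + 2)⌉₊ + 1000 * n + ⌈1000 * |A|⌉₊ + 1 ≤ T :=
    le_trans (le_max_right _ _) hT
  have h3 := Nat.le_ceil (1000 * Real.log ((m : ℝ) + 2))
  have h4 := Nat.le_ceil (1000 * |A|)
  have h5 : ((⌈1000 * Real.log ((m : ℝ) + 2)⌉₊ : ℝ) + 1000 * n + ⌈1000 * |A|⌉₊ + 1 : ℝ) ≤ T := by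
    exact_mod_cast h2
  have h6 : (0 : ℝ) ≤ (⌈1000 * Real.log ((m : ℝ) + 2)⌉₊ : ℝ) := by positivity
  have h7 : (0 : ℝ) ≤ (n : ℝ) := by positivity
  have h8 : (0 : ℝ) ≤ (⌈1000 * |A|⌉₊ : ℝ) := by positivity
  have h9 : A ≤ |A| := le_abs_self A
  refine ⟨hT1 T h1, by linarith, by linarith, ?_⟩
  have h10 : (1 : ℝ) ≤ T := by linarith
  have h11 : (T : ℝ) ≤ (T : ℝ) ^ 2 := by nlinarith
  linarith

theorem A1 (T : ℕ) (hT : Big T) (P : ℝ) (hP : 1 ≤ P) (hP2 : P ≤ 8 * 8 ^ T) :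
    4 * (T : ℝ) * (P * (((T : ℝ) + 1) * (LL T : ℝ) * 16 ^ T * (1 + ((T : ℝ) + 1) * (1 * P)))) ≤
      Real.exp (8.33 * T) := by
  obtain ⟨h1, h2, h3⟩ := hT
  have hT1 : (10000 : ℝ) ≤ T := by exact_mod_cast h1
  have hLL : (0 : ℝ) < LL T := by exact_mod_cast LL_pos T
  have hPP : P * P ≤ 64 * 64 ^ T := by
    calc P * P ≤ (8 * 8 ^ T) * (8 * 8 ^ T) := mul_le_mul hP2 hP2 (by linarith) (by positivity)
      _ = 64 * (8 * 8) ^ T := by rw [mul_pow]; ring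
      _ = 64 * 64 ^ T := by norm_num
  have h4 : 1 + ((T : ℝ) + 1) * (1 * P) ≤ ((T : ℝ) + 2) * P := by
    linarith
  have h5 : 4 * (T : ℝ) * (P * (((T : ℝ) + 1) * (LL T : ℝ) * 16 ^ T *
      (1 + ((T : ℝ) + 1) * (1 * P)))) ≤
      256 * ((T : ℝ) + 2) ^ 3 * (LL T : ℝ) * 1024 ^ T := by
    calc 4 * (T : ℝ) * (P * (((T : ℝ) + 1) * (LL T : ℝ) * 16 ^ T *
      (1 + ((T : ℝ) + 1) * (1 * P))))
        ≤ 4 * ((T : ℝ) + 2) * (P * (((T : ℝ) + 2) * (LL T : ℝ) * 16 ^ T *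
      (((T : ℝ) + 2) * P))) := by
          gcongr
          · linarith
          · linarith
      _ = 4 * ((T : ℝ) + 2) ^ 3 * (LL T : ℝ) * 16 ^ T * (P * P) := by ring
      _ ≤ 4 * ((T : ℝ) + 2) ^ 3 * (LL T : ℝ) * 16 ^ T * (64 * 64 ^ T) := by
          gcongr
      _ = 256 * ((T : ℝ) + 2) ^ 3 * (LL T : ℝ) * (16 * 64) ^ T := by
          rw [mul_pow]
          ring
      _ = 256 * ((T : ℝ) + 2) ^ 3 * (LL T : ℝ) * 1024 ^ T := by norm_num
  refine h5.trans ?_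
  have hpos : 0 < 256 * ((T : ℝ) + 2) ^ 3 * (LL T : ℝ) * 1024 ^ T := by positivity
  rw [← Real.log_le_iff_le_exp hpos]
  have hT2 : (0 : ℝ) < (T : ℝ) + 2 := by linarith
  rw [Real.log_mul (by positivity) (by positivity), Real.log_mul (by positivity) (by positivity),
    Real.log_mul (by positivity) (by positivity),
    Real.log_pow, Real.log_pow]
  have h6 := log_LL T (by omega)
  have h7 : Real.log 256 = 8 * Real.log 2 := by
    rw [show (256 : ℝ) = 2 ^ 8 by norm_num, Real.log_pow]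
    norm_num
  have h8 : Real.log 1024 = 10 * Real.log 2 := by
    rw [show (1024 : ℝ) = 2 ^ 10 by norm_num, Real.log_pow]
    norm_num
  rw [h7, h8]
  rw [log4] at h6
  have h9 := log2_hi
  have h10 : (T : ℝ) * Real.log 2 ≤ T * 0.6932 := by
    apply mul_le_mul_of_nonneg_left h9.le
    linarith
  push_cast
  linarith

/-- size of the factors -/
theorem A2 (T : ℕ) (hT : Big T) (P : ℝ) (hP : 1 ≤ P) (hP2 : P ≤ 8 * 8 ^ T) :
    Real.log (1 + 1 * T * P) ≤ 3 * T := by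
  obtain ⟨h1, h2, h3⟩ := hT
  have hT1 : (10000 : ℝ) ≤ T := by exact_mod_cast h1
  have hT2 : (0 : ℝ) < (T : ℝ) + 2 := by linarith
  have h4 : 1 + 1 * T * P ≤ ((T : ℝ) + 2) * (8 * 8 ^ T) := by
    calc 1 + 1 * T * P ≤ P + T * P := by
          linarith
      _ = ((T : ℝ) + 1) * P := by ring
      _ ≤ ((T : ℝ) + 2) * (8 * 8 ^ T) := by
          gcongr
          linarith
  have h5 : Real.log (1 + 1 * T * P) ≤ Real.log (((T : ℝ) + 2) * (8 * 8 ^ T)) :=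
    Real.log_le_log (by positivity) h4
  refine h5.trans ?_
  rw [Real.log_mul (by positivity) (by positivity),
    Real.log_mul (by positivity) (by positivity), Real.log_pow, log8]
  have h9 := log2_hi
  have h10 : (T : ℝ) * Real.log 2 ≤ T * 0.6932 := by
    apply mul_le_mul_of_nonneg_left h9.le
    linarith
  linarith

/-- the double logarithm of the height -/
theorem A3 (m n : ℕ) (A : ℝ) (T : ℕ) (hT : Big2 m n A T) (E lP lH : ℝ) (hE0 : 0 ≤ E)
    (hE : 2 * E ≤ Real.exp (8.33 * T)) (hlP : lP ≤ 3 * T) (hlH0 : 1 ≤ lH)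
    (hlH : lH ≤ lP + ((T : ℝ) + 1) * (((m : ℝ) + 1) * (2 * E + 1) * (3 * T))) :
    Real.log lH ≤ 8.34 * T := by
  obtain ⟨⟨h1, h2, h3⟩, h4, h5, h6⟩ := hT
  have hT1 : (10000 : ℝ) ≤ T := by exact_mod_cast h1
  have he1 : 1 ≤ Real.exp (8.33 * T) := Real.one_le_exp (by linarith)
  have hm0 : (0 : ℝ) ≤ m := by positivity
  have h7 : lH ≤ 6 * ((T : ℝ) + 2) ^ 2 * ((m : ℝ) + 2) * Real.exp (8.33 * T) := by
    calc lH ≤ 3 * T + ((T : ℝ) + 1) * (((m : ℝ) + 1) * (2 * E + 1) * (3 * T)) := by linarith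
      _ ≤ 3 * T * Real.exp (8.33 * T) + ((T : ℝ) + 1) * (((m : ℝ) + 1) *
          (2 * Real.exp (8.33 * T)) * (3 * T)) := by
          refine add_le_add (le_mul_of_one_le_right (by linarith) he1) ?_
          gcongr
          linarith
      _ = 3 * T * (1 + 2 * ((T : ℝ) + 1) * ((m : ℝ) + 1)) * Real.exp (8.33 * T) := by ring
      _ ≤ 6 * ((T : ℝ) + 2) ^ 2 * ((m : ℝ) + 2) * Real.exp (8.33 * T) := by
          apply mul_le_mul_of_nonneg_right _ (Real.exp_pos _).le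
          have h8 : 0 ≤ (T : ℝ) * m := by positivity
          have h9 : 0 ≤ (T : ℝ) * T * m := by positivity
          nlinarith
  have hT2 : (0 : ℝ) < (T : ℝ) + 2 := by linarith
  have hm2 : (0 : ℝ) < (m : ℝ) + 2 := by linarith
  have h8 := Real.log_le_log (by linarith) h7
  rw [Real.log_mul (by positivity) (by positivity), Real.log_mul (by positivity) (by positivity),
    Real.log_mul (by positivity) (by positivity), Real.log_pow, Real.log_exp] at h8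
  have h9 : Real.log 6 ≤ 3 * Real.log 2 := by
    rw [← log8]
    exact Real.log_le_log (by norm_num) (by norm_num)
  have h10 := log2_hi
  push_cast at h8
  linarith

/-- the final inequality -/
theorem A4 (m n : ℕ) (A : ℝ) (T : ℕ) (hT : Big2 m n A T) (lP ll : ℝ)
    (hlP : (T : ℝ) * Real.log 8 ≤ lP) (hll0 : 0 ≤ ll) (hll : ll ≤ 8.34 * T) :
    (n : ℝ) * lP + T * (Real.log 2 + Real.log T) + A + ll ^ 2 / 34 < T * lP := by
  obtain ⟨⟨h1, h2, h3⟩, h4, h5, h6⟩ := hT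
  have hT1 : (10000 : ℝ) ≤ T := by exact_mod_cast h1
  rw [log8] at hlP
  have h7 := log2_lo
  have h8 := log2_hi
  have h9 : (T : ℝ) * 2.0793 ≤ lP := by
    have : (T : ℝ) * 2.0793 ≤ T * (3 * Real.log 2) :=
      mul_le_mul_of_nonneg_left (by linarith) (by linarith)
    linarith
  have hlP0 : 0 ≤ lP := by
    have : 0 ≤ (T : ℝ) * 2.0793 := by positivity
    linarith
  have h10 : (n : ℝ) * lP ≤ (T : ℝ) / 1000 * lP := mul_le_mul_of_nonneg_right h5 hlP0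
  have h11 : Real.log T ≤ (T : ℝ) / 1000 :=
    le_trans (Real.log_le_log (by linarith) (by linarith)) h2
  have h12 : (T : ℝ) * (Real.log 2 + Real.log T) ≤ T * (0.002 * T) := by
    apply mul_le_mul_of_nonneg_left _ (by linarith)
    linarith
  have h13 : ll ^ 2 ≤ (8.34 * T) ^ 2 := pow_le_pow_left₀ hll0 hll 2
  have h14 : (0.999 * T) * ((T : ℝ) * 2.0793) ≤ (0.999 * T) * lP :=
    mul_le_mul_of_nonneg_left h9 (by linarith)
  have h15 : (8.34 * (T : ℝ)) ^ 2 = 69.5556 * T ^ 2 := by ring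
  have h16 : (0.999 * T) * ((T : ℝ) * 2.0793) = 2.0772207 * T ^ 2 := by ring
  have h17 : (T : ℝ) * (0.002 * T) = 0.002 * T ^ 2 := by ring
  have h18 : (0 : ℝ) < T ^ 2 := by positivity
  linarith

end Pool.Agent.H902C
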