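import Mathlib

set_option autoImplicit false

/-!
Specialisation of polynomials in several variables.
-/

namespace Pool.Agent.H902C

open MvPolynomial

variable {n : ℕ}

/-- `F` with `X i` replaced by `0` -/
noncomputable def kill (i : Fin n) (F : MvPolynomial (Fin n) ℤ) : MvPolynomial (Fin n) ℤ :=
  bind₁ (fun j => if j = i then 0 else X j) F

theorem X_dvd_sub_kill (i : Fin n) (F : MvPolynomial (Fin n) ℤ) : X i ∣ F - kill i F := by
  induction F using MvPolynomial.induction_on with
  | C a => simp [kill]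
  | add p q hp hq =>
    have h : p + q - kill i (p + q) = (p - kill i p) + (q - kill i q) := by
      simp only [kill, map_add]
      ring
    rw [h]
    exact dvd_add hp hq
  | mul_X p j hp =>
    by_cases hj : j = i
    · subst hj
      have h : p * X j - kill j (p * X j) = p * X j := by
        simp [kill]
      rw [h]
      exact dvd_mul_left _ _
    · have h : p * X j - kill i (p * X j) = (p - kill i p) * X j := by
        simp only [kill, map_mul, bind₁_X_right, if_neg hj]
        ring
      rw [h]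
      exact hp.mul_right _

theorem kill_ne_zero (i : Fin n) (F : MvPolynomial (Fin n) ℤ) (h : ¬ X i ∣ F) : kill i F ≠ 0 := by
  intro h0
  apply h
  have := X_dvd_sub_kill i F
  rwa [h0, sub_zero] at this

theorem sub_kill_ne_zero (i : Fin n) (F : MvPolynomial (Fin n) ℤ) (h : i ∈ F.vars) :
    F - kill i F ≠ 0 := by
  intro h0
  have h1 : F = kill i F := sub_eq_zero.1 h0
  rw [h1] at h
  obtain ⟨j, -, hj2⟩ := mem_vars_bind₁ _ _ h
  by_cases hj : j = i
  · rw [if_pos hj] at hj2
    simp at hj2
  · rw [if_neg hj, vars_X] at hj2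
    exact hj (Finset.mem_singleton.1 hj2).symm

theorem eval_kill (i : Fin n) (F : MvPolynomial (Fin n) ℤ) (t : Fin n → ℤ) :
    eval t (kill i F) = eval (Function.update t i 0) F := by
  induction F using MvPolynomial.induction_on with
  | C a => simp [kill]
  | add p q hp hq =>
    simp only [kill, map_add] at hp hq ⊢
    rw [hp, hq]
  | mul_X p j hp =>
    simp only [kill, map_mul, bind₁_X_right] at hp ⊢
    rw [hp]
    by_cases hj : j = i
    · subst hj
      simp
    · simp [hj]

/-- the one-variable polynomial -/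
noncomputable def one (i : Fin n) (t : Fin n → ℤ) (F : MvPolynomial (Fin n) ℤ) : Polynomial ℤ :=
  eval₂ (Polynomial.C : ℤ →+* Polynomial ℤ) (fun j => if j = i then Polynomial.X else
    Polynomial.C (t j)) F

theorem eval_one (i : Fin n) (t : Fin n → ℤ) (F : MvPolynomial (Fin n) ℤ) (x : ℤ) :
    (one i t F).eval x = eval (Function.update t i x) F := by
  induction F using MvPolynomial.induction_on with
  | C a => rw [one, eval₂_C, Polynomial.eval_C, eval_C]
  | add p q hp hq =>
    simp only [one, eval₂_add, Polynomial.eval_add, map_add] at hp hq ⊢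
    rw [hp, hq]
  | mul_X p j hp =>
    simp only [one, eval₂_mul, Polynomial.eval_mul, map_mul, eval₂_X] at hp ⊢
    rw [hp]
    by_cases hj : j = i
    · subst hj
      simp
    · simp [hj]

theorem exists_t (i : Fin n) (F : MvPolynomial (Fin n) ℤ) (hi : i ∈ F.vars) (hX : ¬ X i ∣ F) :
    ∃ t : Fin n → ℤ, (∀ j, t j ≠ 0) ∧ 0 < (one i t F).natDegree ∧ (one i t F).eval 0 ≠ 0 := by
  have h1 := kill_ne_zero i F hX
  have h2 := sub_kill_ne_zero i F hi
  have h3 : (∏ j, (X j : MvPolynomial (Fin n) ℤ)) ≠ 0 :=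
    Finset.prod_ne_zero_iff.2 fun j _ => X_ne_zero j
  have h4 : (∏ j, (X j : MvPolynomial (Fin n) ℤ)) * (kill i F * (F - kill i F)) ≠ 0 :=
    mul_ne_zero h3 (mul_ne_zero h1 h2)
  obtain ⟨t, ht⟩ : ∃ t : Fin n → ℤ,
      eval t ((∏ j, (X j : MvPolynomial (Fin n) ℤ)) * (kill i F * (F - kill i F))) ≠ 0 := by
    by_contra hcon
    push Not at hcon
    apply h4
    apply MvPolynomial.funext
    intro x
    rw [hcon x, map_zero]
  rw [map_mul, map_mul, map_prod, map_sub] at ht
  have ht1 : (∏ j, eval t (X j : MvPolynomial (Fin n) ℤ)) ≠ 0 := left_ne_zero_of_mul ht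
  have ht2 := right_ne_zero_of_mul ht
  have ht3 := left_ne_zero_of_mul ht2
  have ht4 := right_ne_zero_of_mul ht2
  have h5 : (one i t F).eval 0 = eval t (kill i F) := by
    rw [eval_one, eval_kill]
  have h6 : (one i t F).eval (t i) = eval t F := by
    rw [eval_one, Function.update_eq_self]
  refine ⟨t, ?_, ?_, ?_⟩
  · intro j
    have := Finset.prod_ne_zero_iff.1 ht1 j (Finset.mem_univ j)
    simpa using this
  · by_contra hcon
    have h7 : (one i t F).natDegree = 0 := by omega
    rw [Polynomial.natDegree_eq_zero] at h7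
    obtain ⟨c, hc⟩ := h7
    apply ht4
    rw [← h5, ← h6, ← hc]
    simp
  · rw [h5]
    exact ht3

/-- congruences -/
theorem eval_congr (F : MvPolynomial (Fin n) ℤ) (m : ℤ) (x y : Fin n → ℤ)
    (h : ∀ j, m ∣ x j - y j) : m ∣ eval x F - eval y F := by
  induction F using MvPolynomial.induction_on with
  | C a => simp
  | add p q hp hq =>
    have := dvd_add hp hq
    rw [map_add, map_add]
    have h1 : eval x p + eval x q - (eval y p + eval y q) =
        eval x p - eval y p + (eval x q - eval y q) := by ring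
    rwa [h1]
  | mul_X p j hp =>
    rw [map_mul, map_mul, eval_X, eval_X]
    have h1 : eval x p * x j - eval y p * y j =
        (eval x p - eval y p) * x j + eval y p * (x j - y j) := by ring
    rw [h1]
    exact dvd_add (hp.mul_right _) ((h j).mul_left _)

/-- the largest monomial of `F` at the point `c` -/
def maxMon (F : MvPolynomial (Fin n) ℤ) (c : Fin n → ℕ) : ℕ :=
  F.support.sup fun m => ∏ j, c j ^ m j

/-- size -/
theorem size (F : MvPolynomial (Fin n) ℤ) : ∃ C : ℕ, 1 ≤ C ∧ ∀ c : Fin n → ℕ,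
    (eval (fun j => (c j : ℤ)) F).natAbs ≤ C * maxMon F c := by
  refine ⟨1 + ∑ s ∈ F.support, (F.coeff s).natAbs, by omega, fun c => ?_⟩
  rw [eval_eq']
  calc (∑ s ∈ F.support, coeff s F * ∏ j, (c j : ℤ) ^ s j).natAbs
      ≤ ∑ s ∈ F.support, (coeff s F * ∏ j, (c j : ℤ) ^ s j).natAbs := Int.natAbs_sum_le _ _
    _ ≤ ∑ s ∈ F.support, (coeff s F).natAbs * maxMon F c := by
        refine Finset.sum_le_sum fun s hs => ?_
        rw [Int.natAbs_mul]
        refine Nat.mul_le_mul_left _ ?_
        have h1 : (∏ j, (c j : ℤ) ^ s j).natAbs = ∏ j, (c j) ^ s j := by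
          have : (∏ j, (c j : ℤ) ^ s j) = ((∏ j, (c j) ^ s j : ℕ) : ℤ) := by push_cast; rfl
          rw [this, Int.natAbs_natCast]
        rw [h1]
        exact Finset.le_sup (f := fun m => ∏ j, c j ^ m j) hs
    _ = (∑ s ∈ F.support, (F.coeff s).natAbs) * maxMon F c := by rw [Finset.sum_mul]
    _ ≤ (1 + ∑ s ∈ F.support, (F.coeff s).natAbs) * maxMon F c :=
        Nat.mul_le_mul_right _ (by omega)

theorem maxMon_pos (F : MvPolynomial (Fin n) ℤ) (hF : F ≠ 0) (c : Fin n → ℕ)
    (hc : ∀ j, 1 ≤ c j) : 1 ≤ maxMon F c := by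
  obtain ⟨s, hs⟩ := MvPolynomial.support_nonempty.2 hF
  have h1 : ∏ j, c j ^ s j ≤ maxMon F c := Finset.le_sup (f := fun m => ∏ j, c j ^ m j) hs
  have h2 : 1 ≤ ∏ j, c j ^ s j := Finset.one_le_prod' fun j _ => Nat.one_le_pow _ _ (hc j)
  omega

theorem maxMon_le (F : MvPolynomial (Fin n) ℤ) (c : Fin n → ℕ) (H : ℕ) (hH : 1 ≤ H)
    (hc : ∀ j, c j ≤ H) : maxMon F c ≤ H ^ F.totalDegree := by
  refine Finset.sup_le fun s hs => ?_
  calc ∏ j, (c j) ^ s j ≤ ∏ j, H ^ s j :=
        Finset.prod_le_prod' fun j _ => Nat.pow_le_pow_left (hc j) _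
    _ = H ^ (∑ j, s j) := by rw [Finset.prod_pow_eq_pow_sum]
    _ ≤ H ^ F.totalDegree := by
        apply Nat.pow_le_pow_right hH
        have := le_totalDegree hs
        rwa [Finsupp.sum_fintype _ _ (fun _ => rfl)] at this

end Pool.Agent.H902C
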