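import Pool.Agent.H902B.Core
import Pool.Agent.H902C.Root
import Pool.Agent.H902C.Hit
import Pool.Agent.H902C.Spec
import Pool.Agent.H902C.Size

set_option autoImplicit false

/-!
Assembly.
-/

namespace Pool.Agent.H902C

open Finset Pool.Agent.H902A Pool.Agent.H902B

/-- the numbers used as coordinates -/
def cj (l P T : ℕ) (f : Fin (T + 1) → ℕ) : ℕ :=
  l * ∏ i : Fin (T + 1), (1 + 1 * i.1 * P) ^ (f i)

theorem rad_le' {n : ℕ} (P T : ℕ) (hP : P.Prime) (l : Fin n → ℕ)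
    (hl1 : ∀ j, 1 ≤ l j) (hl2 : ∀ j, l j ≤ P) (f : Fin n → Fin (T + 1) → ℕ)
    (N : ℕ) (hN0 : N ≠ 0) (hN : P ^ (2 * T + 1) ∣ N) :
    rad ((∏ j, cj (l j) P T (f j)) * N) * P ^ (2 * T) ≤
      (P ^ n * ∏ i : Fin (T + 1), (1 + 1 * i.1 * P)) * N := by
  obtain ⟨b, hb⟩ := hN
  have hb0 : b ≠ 0 := by
    rintro rfl
    exact hN0 (by simpa using hb)
  have h1 : rad N ≤ P * b := by
    rw [hb]
    exact (rad_mul_le _ _).trans (Nat.mul_le_mul ((rad_pow_le _ _).trans (rad_le hP.ne_zero))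
      (rad_le hb0))
  have h2 : ∏ j, cj (l j) P T (f j) =
      (∏ j, l j) * ∏ i : Fin (T + 1), (1 + 1 * i.1 * P) ^ (∑ j, f j i) := by
    unfold cj
    rw [Finset.prod_mul_distrib, Finset.prod_comm]
    congr 1
    refine Finset.prod_congr rfl fun i _ => ?_
    rw [Finset.prod_pow_eq_pow_sum]
  have h3 : rad (∏ j, cj (l j) P T (f j)) ≤ P ^ n * ∏ i : Fin (T + 1), (1 + 1 * i.1 * P) := by
    rw [h2]
    refine (rad_mul_le _ _).trans (Nat.mul_le_mul ?_ ?_)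
    · refine (rad_le (Finset.prod_ne_zero_iff.2 fun j _ => by have := hl1 j; omega)).trans ?_
      calc ∏ j, l j ≤ ∏ _j : Fin n, P := Finset.prod_le_prod' fun j _ => hl2 j
        _ = P ^ n := by simp
    · refine (rad_prod_le _ _).trans (Finset.prod_le_prod' fun i _ => ?_)
      exact (rad_pow_le _ _).trans (rad_le (by omega))
  calc rad ((∏ j, cj (l j) P T (f j)) * N) * P ^ (2 * T)
      ≤ (rad (∏ j, cj (l j) P T (f j)) * rad N) * P ^ (2 * T) :=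
        Nat.mul_le_mul_right _ (rad_mul_le _ _)
    _ ≤ ((P ^ n * ∏ i : Fin (T + 1), (1 + 1 * i.1 * P)) * (P * b)) * P ^ (2 * T) :=
        Nat.mul_le_mul_right _ (Nat.mul_le_mul h3 h1)
    _ = (P ^ n * ∏ i : Fin (T + 1), (1 + 1 * i.1 * P)) * (P ^ (2 * T + 1) * b) := by ring
    _ = (P ^ n * ∏ i : Fin (T + 1), (1 + 1 * i.1 * P)) * N := by rw [← hb]

theorem cj_lt (l P T : ℕ) (hT : 1 ≤ T) (hl : 1 ≤ l) (hP : 1 ≤ P) (f g : Fin (T + 1) → ℕ)
    (h : ∀ i, f i < g i) : cj l P T f < cj l P T g := by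
  unfold cj
  apply Nat.mul_lt_mul_of_pos_left _ (by omega)
  apply Finset.prod_lt_prod
  · intro i _
    positivity
  · intro i _
    exact Nat.pow_le_pow_right (by omega) (h i).le
  · refine ⟨⟨1, by omega⟩, Finset.mem_univ _, ?_⟩
    apply Nat.pow_lt_pow_right _ (h _)
    simp only
    omega

theorem cj_pos (l P T : ℕ) (hl : 1 ≤ l) (f : Fin (T + 1) → ℕ) : 1 ≤ cj l P T f := by
  unfold cj
  exact Nat.one_le_iff_ne_zero.2 (mul_ne_zero (by omega) (by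
    have := one_le_prod 1 P T f
    omega))

theorem cj_ge (l P T : ℕ) (hT : 1 ≤ T) (hl : 1 ≤ l) (f : Fin (T + 1) → ℕ) (hf : ∀ i, 1 ≤ f i) :
    P ≤ cj l P T f := by
  unfold cj
  have h1 : (1 + 1 * 1 * P) ^ (f ⟨1, by omega⟩) ∣ ∏ i : Fin (T + 1), (1 + 1 * i.1 * P) ^ (f i) :=
    Finset.dvd_prod_of_mem (fun i : Fin (T + 1) => (1 + 1 * i.1 * P) ^ (f i))
      (Finset.mem_univ (⟨1, by omega⟩ : Fin (T + 1)))
  have h2 := Nat.le_of_dvd (by
    have := one_le_prod 1 P T f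
    omega) h1
  have h3 : 1 + 1 * 1 * P ≤ (1 + 1 * 1 * P) ^ (f ⟨1, by omega⟩) :=
    Nat.le_self_pow (by have := hf ⟨1, by omega⟩; omega) _
  calc P ≤ 1 + 1 * 1 * P := by omega
    _ ≤ ∏ i : Fin (T + 1), (1 + 1 * i.1 * P) ^ (f i) := h3.trans h2
    _ ≤ l * ∏ i : Fin (T + 1), (1 + 1 * i.1 * P) ^ (f i) := Nat.le_mul_of_pos_left _ (by omega)

theorem log_cj (T : ℕ) (hT : Big T) (l P : ℕ) (hl1 : 1 ≤ l) (hl : l ≤ P)
    (hP : 1 ≤ P) (hP2 : (P : ℝ) ≤ 8 * 8 ^ T) (f : Fin (T + 1) → ℕ) (M : ℝ) (hM : 0 ≤ M)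
    (hf : ∀ i, (f i : ℝ) ≤ M) :
    Real.log (cj l P T f : ℝ) ≤ Real.log P + ((T : ℝ) + 1) * (M * (3 * T)) := by
  have hP0 : (1 : ℝ) ≤ P := by exact_mod_cast hP
  have hl0 : (1 : ℝ) ≤ l := by exact_mod_cast hl1
  have hpos : ∀ i : Fin (T + 1), (0 : ℝ) < 1 + 1 * (i.1 : ℝ) * P := fun i => by positivity
  have h1 : (cj l P T f : ℝ) = (l : ℝ) *
      ∏ i : Fin (T + 1), (1 + 1 * (i.1 : ℝ) * P) ^ (f i) := by
    unfold cj
    push_cast
    ring
  rw [h1, Real.log_mul (by positivity) (Finset.prod_ne_zero_iff.2 fun i _ =>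
    pow_ne_zero _ (hpos i).ne'), Real.log_prod (fun i _ => pow_ne_zero _ (hpos i).ne')]
  refine add_le_add (Real.log_le_log (by positivity) (by exact_mod_cast hl)) ?_
  have h2 : ∀ i ∈ (univ : Finset (Fin (T + 1))),
      Real.log ((1 + 1 * (i.1 : ℝ) * P) ^ (f i)) ≤ M * (3 * T) := by
    intro i _
    rw [Real.log_pow]
    have h3 : Real.log (1 + 1 * (i.1 : ℝ) * P) ≤ 3 * T := by
      refine le_trans (Real.log_le_log (hpos i) ?_) (A2 T hT (P : ℝ) hP0 hP2)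
      have h3 : (i.1 : ℝ) ≤ T := by
        have := i.2
        exact_mod_cast (by omega : i.1 ≤ T)
      gcongr
    have h4 : 0 ≤ Real.log (1 + 1 * (i.1 : ℝ) * P) := Real.log_nonneg (by
      have : (0 : ℝ) ≤ 1 * (i.1 : ℝ) * P := by positivity
      linarith)
    exact mul_le_mul (hf i) h3 h4 hM
  refine (Finset.sum_le_card_nsmul _ _ _ h2).trans (le_of_eq ?_)
  rw [Finset.card_univ, Fintype.card_fin, nsmul_eq_mul]
  push_cast
  ring

end Pool.Agent.H902C
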